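import Pool.Agent.helper41.HFE.Spec

/-!
# Row TRM of HFE (MP_3221a1_ag): the matrix and the points
-/

set_option autoImplicit false

open Polynomial Module Pool.Agent.HFN

namespace Pool.Agent.HFE

noncomputable section

open Pool.Agent.helper29.JZ

section

variable {h h' : ℕ} {x : Fin h → ℂ} {y : Fin h' → ℂ} {M : Finset (Fin h × Fin h')}

theorem TRM_mem (z : ℂ × ℂ) : z ∈ ZZ x y M ↔ ∃ w ∈ M, (x w.1, y w.2) = z := by
  unfold ZZ
  rw [Finset.mem_image]

theorem TRM_mem2 (hx : Function.Injective x) (hy : Function.Injective y) (w : Fin h × Fin h') : (x w.1, y w.2) ∈ ZZ x y M ↔ w ∈ M := by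
  rw [TRM_mem]
  constructor
  · rintro ⟨v, hv, e⟩
    have e1 : v.1 = w.1 := hx (Prod.mk.inj e).1
    have e2 : v.2 = w.2 := hy (Prod.mk.inj e).2
    have e3 : v = w := Prod.ext e1 e2
    rwa [← e3]
  · intro hw
    exact ⟨w, hw, rfl⟩

theorem TRM_card (hx : Function.Injective x) (hy : Function.Injective y) : (ZZ x y M).card = M.card := by
  symm
  refine Finset.card_bij (fun w _ => (x w.1, y w.2)) (fun w hw => (TRM_mem2 hx hy w).2 hw) ?_ ?_
  · intro v _ w _ e
    exact Prod.ext (hx (Prod.mk.inj e).1) (hy (Prod.mk.inj e).2)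
  · intro z hz
    obtain ⟨w, hw, e⟩ := (TRM_mem z).1 hz
    exact ⟨w, hw, e⟩

theorem TRM_nc (hx : Function.Injective x) (hy : Function.Injective y) (k : Fin h) : nc (ZZ x y M) (x k) = col M k := by
  symm
  unfold nc col
  refine Finset.card_bij (fun w _ => (x w.1, y w.2)) ?_ ?_ ?_
  · intro w hw
    rw [Finset.mem_filter] at hw ⊢
    exact ⟨(TRM_mem2 hx hy w).2 hw.1, by rw [← hw.2]⟩
  · intro v _ w _ e
    exact Prod.ext (hx (Prod.mk.inj e).1) (hy (Prod.mk.inj e).2)
  · intro z hz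
    rw [Finset.mem_filter] at hz
    obtain ⟨w, hw, e⟩ := (TRM_mem z).1 hz.1
    refine ⟨w, ?_, e⟩
    rw [Finset.mem_filter]
    refine ⟨hw, hx ?_⟩
    rw [← hz.2, ← e]

theorem TRM_mr (hx : Function.Injective x) (hy : Function.Injective y) (m : Fin h') : mr (ZZ x y M) (y m) = row M m := by
  symm
  unfold mr row
  refine Finset.card_bij (fun w _ => (x w.1, y w.2)) ?_ ?_ ?_
  · intro w hw
    rw [Finset.mem_filter] at hw ⊢
    exact ⟨(TRM_mem2 hx hy w).2 hw.1, by rw [← hw.2]⟩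
  · intro v _ w _ e
    exact Prod.ext (hx (Prod.mk.inj e).1) (hy (Prod.mk.inj e).2)
  · intro z hz
    rw [Finset.mem_filter] at hz
    obtain ⟨w, hw, e⟩ := (TRM_mem z).1 hz.1
    refine ⟨w, ?_, e⟩
    rw [Finset.mem_filter]
    refine ⟨hw, hy ?_⟩
    rw [← hz.2, ← e]

theorem TRM_nc0 (α : ℂ) (hα : ∀ k, α ≠ x k) : nc (ZZ x y M) α = 0 := by
  unfold nc
  rw [Finset.card_eq_zero, Finset.filter_eq_empty_iff]
  intro z hz e
  obtain ⟨w, _, e'⟩ := (TRM_mem z).1 hz
  apply hα w.1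
  rw [← e, ← e']

theorem TRM_mr0 (β : ℂ) (hβ : ∀ m, β ≠ y m) : mr (ZZ x y M) β = 0 := by
  unfold mr
  rw [Finset.card_eq_zero, Finset.filter_eq_empty_iff]
  intro z hz e
  obtain ⟨w, _, e'⟩ := (TRM_mem z).1 hz
  apply hβ w.2
  rw [← e, ← e']

theorem TRM_cr (hx : Function.Injective x) (hy : Function.Injective y) (k : Fin h) (m : Fin h') :
    cr (ZZ x y M) (x k) (y m) = 2 * col M k + 2 * row M m - if (k, m) ∈ M then 1 else 0 := by
  unfold cr
  rw [TRM_nc hx hy, TRM_mr hx hy]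
  congr 1
  by_cases hw : (k, m) ∈ M
  · rw [if_pos hw, if_pos ((TRM_mem2 hx hy (k, m)).2 hw)]
  · rw [if_neg hw, if_neg (fun hc => hw ((TRM_mem2 hx hy (k, m)).1 hc))]

theorem TRM_le (k : Fin h) (m : Fin h') : (2 * col M k + 2 * row M m - if (k, m) ∈ M then 1 else 0) ≤ XM M := by
  unfold XM
  exact Finset.le_sup (f := fun p : Fin h × Fin h' => 2 * col M p.1 + 2 * row M p.2 - if p ∈ M then 1 else 0) (Finset.mem_univ (k, m))

end

theorem TRM : TRM_stmt := by
  intro h h' x y M hx hy hcol hrow hM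
  obtain ⟨w0, hw0⟩ := Finset.card_pos.1 (by omega : 0 < M.card)
  have hrn : ∀ m, ∃ w ∈ M, w.2 = m := by
    intro m
    have h1 := hrow m
    unfold row at h1
    obtain ⟨w, hw⟩ := Finset.card_pos.1 (by omega : 0 < (M.filter fun z => z.2 = m).card)
    rw [Finset.mem_filter] at hw
    exact ⟨w, hw.1, hw.2⟩
  have hcn : ∀ k, ∃ w ∈ M, w.1 = k := by
    intro k
    have h1 := hcol k
    unfold col at h1
    obtain ⟨w, hw⟩ := Finset.card_pos.1 (by omega : 0 < (M.filter fun z => z.1 = k).card)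
    rw [Finset.mem_filter] at hw
    exact ⟨w, hw.1, hw.2⟩
  have hone : ∀ (k : Fin h) (m : Fin h'), (if (k, m) ∈ M then 1 else 0) ≤ 1 := by
    intro k m
    split_ifs <;> omega
  refine ⟨TRM_card hx hy, ?_, ?_, ?_, ?_⟩
  · intro i
    symm
    unfold Aa AM
    refine Finset.sum_bij (fun m _ => y m) ?_ ?_ ?_ ?_
    · intro m _
      obtain ⟨w, hw, rfl⟩ := hrn m
      rw [Finset.mem_image]
      exact ⟨(x w.1, y w.2), (TRM_mem2 hx hy w).2 hw, rfl⟩
    · intro m _ m' _ e
      exact hy e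
    · intro β hβ
      rw [Finset.mem_image] at hβ
      obtain ⟨z, hz, rfl⟩ := hβ
      obtain ⟨w, _, e⟩ := (TRM_mem z).1 hz
      exact ⟨w.2, Finset.mem_univ _, by rw [← e]⟩
    · intro m _
      rw [TRM_mr hx hy]
  · intro j
    symm
    unfold Bb BM
    refine Finset.sum_bij (fun k _ => x k) ?_ ?_ ?_ ?_
    · intro k _
      obtain ⟨w, hw, rfl⟩ := hcn k
      rw [Finset.mem_image]
      exact ⟨(x w.1, y w.2), (TRM_mem2 hx hy w).2 hw, rfl⟩
    · intro m _ m' _ e
      exact hx e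
    · intro β hβ
      rw [Finset.mem_image] at hβ
      obtain ⟨z, hz, rfl⟩ := hβ
      obtain ⟨w, _, e⟩ := (TRM_mem z).1 hz
      exact ⟨w.1, Finset.mem_univ _, by rw [← e]⟩
    · intro k _
      rw [TRM_nc hx hy]
  · intro α β
    by_cases h1 : ∃ k, α = x k
    · obtain ⟨k, rfl⟩ := h1
      by_cases h2 : ∃ m, β = y m
      · obtain ⟨m, rfl⟩ := h2
        rw [TRM_cr hx hy]
        exact TRM_le k m
      · push Not at h2
        have h3 := TRM_le (M := M) k w0.2
        have h4 := hone k w0.2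
        have h5 := hrow w0.2
        have h6 : cr (ZZ x y M) (x k) β ≤ 2 * col M k := by
          unfold cr
          rw [TRM_nc hx hy, TRM_mr0 β h2]
          omega
        omega
    · push Not at h1
      by_cases h2 : ∃ m, β = y m
      · obtain ⟨m, rfl⟩ := h2
        have h3 := TRM_le (M := M) w0.1 m
        have h4 := hone w0.1 m
        have h5 := hcol w0.1
        have h6 : cr (ZZ x y M) α (y m) ≤ 2 * row M m := by
          unfold cr
          rw [TRM_nc0 α h1, TRM_mr hx hy]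
          omega
        omega
      · push Not at h2
        have h6 : cr (ZZ x y M) α β ≤ 0 := by
          unfold cr
          rw [TRM_nc0 α h1, TRM_mr0 β h2]
          omega
        omega
  · obtain ⟨p, _, hp⟩ := Finset.exists_mem_eq_sup (Finset.univ : Finset (Fin h × Fin h')) ⟨w0, Finset.mem_univ _⟩
      (fun p : Fin h × Fin h' => 2 * col M p.1 + 2 * row M p.2 - if p ∈ M then 1 else 0)
    refine ⟨x p.1, y p.2, ?_⟩
    rw [TRM_cr hx hy]
    exact hp.symm

end

end Pool.Agent.HFE
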